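import Mathlib
import Pool.Agent.X121.AB.Fin

/-!
# An algebraic irrational number is normal to almost all bases, up to its first `(log b)^(1/7)` digits

The proof combines a moment computation with bounds for the exponential sums
`∑_{b ≤ B} e(x Q(b))` over the bases, where `Q` is an integral polynomial of degree up to
`(log B)^(1/7)`. These follow from Vinogradov's mean value theorem with explicit constants and from
Liouville's inequality for `x`. The passage to intervals is an inequality of Erdős–Turán type.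
-/

set_option autoImplicit false

open Real

namespace Pool.Agent.Results.MP_f2f914_nt.AlmostAllBases

/-- the number of `1 ≤ i ≤ N` such that the fractional part of `x b ^ i` lies in `[u, v)` -/
noncomputable def count (x : ℝ) (b N : ℕ) (u v : ℝ) : ℕ :=
  {i : ℕ | 1 ≤ i ∧ i ≤ N ∧ u ≤ Int.fract (x * (b : ℝ) ^ i) ∧ Int.fract (x * (b : ℝ) ^ i) < v}.ncard

/-- for all intervals `[u, v)` in `[0, 1]` the number of `1 ≤ i ≤ N` such that the fractional part of
`x b ^ i` lies in `[u, v)` differs from `(v - u) N` by at most `C √(N (log (N + 1)) ^ 3)` -/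
def Regular (x C : ℝ) (b N : ℕ) : Prop :=
  ∀ u v : ℝ, 0 ≤ u → u ≤ v → v ≤ 1 → |(count x b N u v : ℝ) - (v - u) * N| ≤ C * √(N * log (N + 1) ^ 3)

lemma count_eq (x : ℝ) (b N : ℕ) (u v : ℝ) : count x b N u v =
    ((Finset.Icc 1 N).filter fun i => u ≤ Int.fract (x * (b : ℝ) ^ i) ∧
      Int.fract (x * (b : ℝ) ^ i) < v).card := by
  unfold count
  rw [← Set.ncard_coe_finset]
  congr 1
  ext i
  simp only [Set.mem_ofPred_eq, Finset.coe_filter, Finset.mem_Icc]
  tauto

/-- **Algebraic irrational numbers in almost all bases.** Let `x` be an algebraic irrational number,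
or any irrational number which is not a Liouville number. For every `A` there is `C` such that for
every interval `(B, B + H]` and `N₁ ≥ 1`, for all bases `b ≥ 2` in the interval with at most
`C N₁ ^ (-A) H` exceptions: for all `N` with `N₁ ≤ N ≤ (log H) ^ (1 / 7)` the sequence
`x b, x b ^ 2, …, x b ^ N` is uniformly distributed modulo one with discrepancy (times `N`) at most
`C √(N (log (N + 1)) ^ 3)`. -/
theorem result (x : ℝ) (hirr : Irrational x) (hx : IsAlgebraic ℚ x ∨ ¬ Liouville x) (A : ℝ) :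
    ∃ C : ℝ, ∀ B H N₁ : ℕ, 1 ≤ N₁ →
      ({b : ℕ | 2 ≤ b ∧ B < b ∧ b ≤ B + H ∧ ¬ ∀ N : ℕ, N₁ ≤ N → (N : ℝ) ≤ log H ^ (1 / 7 : ℝ) →
        Regular x C b N}.ncard : ℝ) ≤ C * (N₁ : ℝ) ^ (-A) * H := by
  classical
  have hL : ¬ Liouville x := by
    rcases hx with h | h
    · intro hl
      exact hl.transcendental ((IsFractionRing.isAlgebraic_iff ℤ ℚ ℝ).2 h)
    · exact h
  obtain ⟨c, τ, hc, hc1, hFT⟩ := Pool.Agent.X121.AB.FT_of hirr hL
  obtain ⟨C, hC⟩ := Pool.Agent.X121.AB.main hc hc1 hFT A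
  refine ⟨C, fun B H N₁ hN₁ => ?_⟩
  rcases Nat.eq_zero_or_pos H with rfl | hB
  · have h1 : {b : ℕ | 2 ≤ b ∧ B < b ∧ b ≤ B + 0 ∧ ¬ ∀ N : ℕ, N₁ ≤ N →
        (N : ℝ) ≤ log (0 : ℕ) ^ (1 / 7 : ℝ) → Regular x C b N} = ∅ := by
      ext b
      simp only [Set.mem_ofPred_eq, Set.mem_empty_iff_false, iff_false]
      rintro ⟨h2, h3, h4, -⟩
      omega
    rw [h1]
    simp
  · refine le_trans ?_ (hC H B N₁ hB hN₁)
    have hsub : {b : ℕ | 2 ≤ b ∧ B < b ∧ b ≤ B + H ∧ ¬ ∀ N : ℕ, N₁ ≤ N →
        (N : ℝ) ≤ log H ^ (1 / 7 : ℝ) → Regular x C b N} ⊆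
        ((((Finset.Icc 1 H).filter fun b => ∃ N : ℕ, N₁ ≤ N ∧
        (N : ℝ) ≤ (Real.log H) ^ (1 / 7 : ℝ) ∧ Pool.Agent.X121.AB.BadN x C N (b + B)).image
          (fun b => b + B) : Finset ℕ) : Set ℕ) := by
      rintro b ⟨h2, h3, h3', h4⟩
      push Not at h4
      obtain ⟨N, h5, h6, h7⟩ := h4
      rw [Finset.mem_coe, Finset.mem_image]
      refine ⟨b - B, ?_, by omega⟩
      rw [Finset.mem_filter, Finset.mem_Icc]
      refine ⟨⟨by omega, by omega⟩, N, h5, h6, ?_⟩
      rw [Nat.sub_add_cancel h3.le]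
      unfold Regular at h7
      push Not at h7
      obtain ⟨u, v, hu, huv, hv, h8⟩ := h7
      refine ⟨u, v, hu, huv, hv, ?_⟩
      rw [← count_eq]
      exact h8
    have h9 := Set.ncard_le_ncard hsub (Finset.finite_toSet _)
    rw [Set.ncard_coe_finset] at h9
    exact_mod_cast h9.trans Finset.card_image_le

end Pool.Agent.Results.MP_f2f914_nt.AlmostAllBases
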