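import Mathlib
import Pool.Agent.Y933.KD.Mult

set_option autoImplicit false

open MeasureTheory

namespace Pool.Agent.Results.MP_f2f914_nt.DigitTestsOfMultiples

/-- `x` passes the test `(b, n, u, v)`: for all `i < k` the fractional part of `b_i ^ (n_i) x`
lies in `[u_i, v_i)`. -/
def Passes {k : ℕ} (b n : Fin k → ℕ) (u v : Fin k → ℝ) (x : ℝ) : Prop :=
  ∀ i, u i ≤ Int.fract ((b i : ℝ) ^ n i * x) ∧ Int.fract ((b i : ℝ) ^ n i * x) < v i

open Classical in
/-- **Digit tests for the multiples of an algebraic irrational number.** Let `ω_1, …, ω_d` be real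
numbers, one of which is an algebraic irrational number. Every test by `k` digits (or intervals) at
places up to `A log M`, in any bases up to `B`, accepts the random number
`m_1 ω_1 + … + m_d ω_d + y`, `1 ≤ m_j ≤ M`, with the same probability as a uniformly distributed
random real number, up to `C M^(-δ)`. -/
theorem result {d : ℕ} (ω : Fin d → ℝ) (j₀ : Fin d) (halg : IsAlgebraic ℚ (ω j₀))
    (hirr : Irrational (ω j₀)) (B k : ℕ) (A : ℝ) :
    ∃ δ : ℝ, 0 < δ ∧ ∃ C : ℝ, ∀ M : ℕ, 1 ≤ M → ∀ y : ℝ, ∀ b n : Fin k → ℕ,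
      (∀ i, 1 ≤ b i ∧ b i ≤ B) → (∀ i, (n i : ℝ) ≤ A * Real.log M) →
      ∀ u v : Fin k → ℝ, (∀ i, 0 ≤ u i) → (∀ i, v i ≤ 1) →
      |(((Fintype.piFinset fun _ : Fin d => Finset.Icc 1 M).filter (fun m : Fin d → ℕ =>
          Passes b n u v (∑ j, (m j : ℝ) * ω j + y))).card : ℝ) / (M : ℝ) ^ d -
        volume.real {x : ℝ | x ∈ Set.Ico (0 : ℝ) 1 ∧ Passes b n u v x}| ≤ C * (M : ℝ) ^ (-δ) := by
  obtain ⟨δ, hδ, C, hC⟩ := Pool.Agent.Y933.KD.tests_mult ω j₀ halg hirr B k A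
  refine ⟨δ, hδ, C, fun M hM y b n hb hn u v hu hv => ?_⟩
  have h := hC M hM y b n hb hn u v hu hv
  have hE : Pool.Agent.Y933.KD.Ev b n u v = {x : ℝ | Passes b n u v x} := rfl
  have hm := Pool.Agent.Y933.KD.measurableSet_Ev b n u v
  rw [Pool.Agent.Y933.KD.real_unif _ _ hm, Pool.Agent.Y933.KD.card_box] at h
  have h1 : Pool.Agent.Y933.KD.Leb.real (Pool.Agent.Y933.KD.Ev b n u v) =
      volume.real {x : ℝ | x ∈ Set.Ico (0 : ℝ) 1 ∧ Passes b n u v x} := by
    unfold Pool.Agent.Y933.KD.Leb Measure.real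
    rw [Measure.restrict_apply hm]
    congr 2
    ext x
    rw [hE]
    simp only [Set.mem_inter_iff, Set.mem_ofPred_eq]
    tauto
  rw [h1] at h
  push_cast at h
  exact h

end Pool.Agent.Results.MP_f2f914_nt.DigitTestsOfMultiples
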