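import Pool.Agent.X121.ZS.Fin2

/-!
# The joint law of many digits of roots of integers

Let `θ > 0` be a real number which is not an integer (for instance `θ = 1 / 2`) and `0 < η ≤ 1`.
Choose an integer `m` at random in an interval `(N, N + H]`, where `N ^ η ≤ H ≤ N`, and consider the
number `x = ω m ^ θ + c` (`ω`, `c` real, `1 ≤ |ω| ≤ exp ((log N)^{9/8})`), for instance
`x = √m`, an algebraic number.

(1) Let `b` be a base and `P` a set of at most `(log N)^{1/8}` places `n` with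
`b^n ≤ exp ((log N)^{9/8})`; so the places may be much larger than `log N`.  The joint law of the base
`b` digits of `x` at the places in `P` differs in total variation by at most `exp (-(log N)^{1/8})`
from the uniform distribution on `{0, …, b-1}^P`, if `H ≥ N^{1/2+η}` and `H ≥ N^{1-θ+η}`; and, for
all `H ≥ N^η`, if the places satisfy `b^n ≥ N^{8/η}`.

(2) If `H ≥ N^{1/2+η}` and `H ≥ N^{1-θ+η}`, then the joint law of at most `(log N)^{1/8}` digits of `x`
in arbitrary bases `b_i ≤ exp ((log N)^{1/8})` at arbitrary places `n_i`,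
`b_i^{n_i} ≤ exp ((log N)^{9/8})`, differs in total variation by at most `exp (-(log N)^{1/8})` from
the joint law of the same digits of a uniformly distributed random real number.

The proof uses a bound for the sums of `e (f m^θ)`, `N < m ≤ N + H`, for `f ≤ exp ((log N)^{79/70})`
(Vinogradov's method with explicit constants, after starting files on the mean value theorem) and
van der Corput's method (starting files) for `f` bounded by a power of `N`, and a comparison of
distributions by means of products of trigonometric majorants.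
-/

set_option autoImplicit false

namespace Pool.Agent.Results.MP_f2f914_nt.DigitsOfRootsInBulk

open Real MeasureTheory

/-- the digit of `x` at the place `n + 1` after the point, in base `b` -/
noncomputable def digit (b n : ℕ) (x : ℝ) : ℕ := ⌊(b : ℝ) * Int.fract ((b : ℝ) ^ n * x)⌋₊

open Classical in
theorem result {θ : ℝ} (hθ0 : 0 < θ) (hθ : ∀ m : ℕ, θ ≠ m) {η : ℝ} (hη : 0 < η) (hη1 : η ≤ 1) :
    ∃ N₀ : ℕ, ∀ N H : ℕ, N₀ ≤ N → (N : ℝ) ^ η ≤ H → H ≤ N → ∀ ω c : ℝ, 1 ≤ |ω| →
      |ω| ≤ exp ((log N) ^ (9 / 8 : ℝ)) →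
      -- (1) one base
      (∀ b : ℕ, 2 ≤ b → (b : ℝ) ≤ exp ((log N) ^ (1 / 8 : ℝ)) → ∀ P : Finset ℕ,
        (P.card : ℝ) ≤ (log N) ^ (1 / 8 : ℝ) →
        (∀ n ∈ P, n * log b ≤ (log N) ^ (9 / 8 : ℝ)) →
        ((∀ n ∈ P, 8 / η * log N ≤ n * log b) ∨
          ((N : ℝ) ^ (1 / 2 + η) ≤ H ∧ (N : ℝ) ^ (1 - θ + η) ≤ H)) →
        ∀ E : Finset (P → Fin b),
        |(((Finset.Ioc N (N + H)).filter fun m : ℕ =>
            ∃ w ∈ E, ∀ n : P, digit b n (ω * (m : ℝ) ^ θ + c) = w n).card : ℝ) / H -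
          E.card / (b : ℝ) ^ P.card| ≤ exp (-((log N) ^ (1 / 8 : ℝ)))) ∧
      -- (2) several bases
      ((N : ℝ) ^ (1 / 2 + η) ≤ H → (N : ℝ) ^ (1 - θ + η) ≤ H → ∀ (k : ℕ) (b n : Fin k → ℕ),
        (k : ℝ) ≤ (log N) ^ (1 / 8 : ℝ) → (∀ i, 1 ≤ b i) →
        (∀ i, (b i : ℝ) ≤ exp ((log N) ^ (1 / 8 : ℝ))) →
        (∀ i, n i * log (b i) ≤ (log N) ^ (9 / 8 : ℝ)) → ∀ E : Set (Fin k → ℕ),
        |(((Finset.Ioc N (N + H)).filter fun m : ℕ =>
            (fun i => digit (b i) (n i) (ω * (m : ℝ) ^ θ + c)) ∈ E).card : ℝ) / H -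
          volume.real {x : ℝ | x ∈ Set.Ico (0 : ℝ) 1 ∧ (fun i => digit (b i) (n i) x) ∈ E}| ≤
          exp (-((log N) ^ (1 / 8 : ℝ)))) :=
  Pool.Agent.X121.ZS.final hθ0 hθ hη hη1

end Pool.Agent.Results.MP_f2f914_nt.DigitsOfRootsInBulk
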