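import Mathlib
import Pool.Agent.X121.PR.Fin

/-!
# The digits of the square roots of primes

Let `θ > 0` be a real number which is not an integer (for instance `θ = 1 / 2`), and let `p` be a
random prime in `(N, 2 N]`.  The digits of `x = ω p ^ θ + c` (`ω`, `c` real,
`1 ≤ |ω| ≤ exp ((log N)^{9/8})`), for instance of `x = √p`, behave like those of a random number:

(1) the joint law of the base `b` digits of `x` at any set `P` of at most `(log N)^{1/8}` places `n`
with `b^n ≤ exp ((log N)^{9/8})` differs in total variation by at most `exp (-(log N)^{1/8})` from the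
uniform distribution on `{0, …, b-1}^P`;

(2) the joint law of at most `(log N)^{1/8}` digits of `x` in arbitrary bases
`b_i ≤ exp ((log N)^{1/8})` at arbitrary places `n_i`, `b_i^{n_i} ≤ exp ((log N)^{9/8})`, differs in
total variation by at most `exp (-(log N)^{1/8})` from the joint law of the same digits of a uniformly
distributed random real number;

(3) for every `ε > 0` there is `c > 0` such that all primes in `(N, 2 N]` but a proportion
`exp (-c (log N)^{1/8})` have the property that in ALL bases `b ≤ exp (c (log N)^{1/8})` and in ALL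
windows of at least `(log N)^{1/8}` consecutive places `j` with `b^j ≤ exp ((log N)^{9/8})` the
fractional parts of `b^j x` are uniformly distributed in `[0, 1)` up to `ε`.

The proof uses Vaughan's identity, bounds for the sums of `e (f m^θ)` over intervals, uniform for all
`f` up to `exp ((log N)^{79/70})` (Vinogradov's method with explicit constants, after starting files on
the mean value theorem) and van der Corput's method (starting files) for smaller `f`; for the bilinear
sums the pairs `l, l'` for which `f (l^θ - l'^θ)` is much smaller than usual are treated trivially.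
The comparison of distributions by trigonometric majorants and the passage to all bases and windows at
once are taken from my earlier results.
-/

set_option autoImplicit false

open Real MeasureTheory

namespace Pool.Agent.Results.MP_f2f914_nt.DigitsOfRootsOfPrimes

/-- the digit of `x` at the place `n + 1` after the point, in base `b` -/
noncomputable def digit (b n : ℕ) (x : ℝ) : ℕ := ⌊(b : ℝ) * Int.fract ((b : ℝ) ^ n * x)⌋₊

/-- The number of `j`, `i ≤ j < i + W`, for which the fractional part of `b ^ j x` lies in `[u, v)`. -/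
noncomputable def count (b : ℕ) (x : ℝ) (i W : ℕ) (u v : ℝ) : ℕ :=
  {j : ℕ | i ≤ j ∧ j < i + W ∧ u ≤ Int.fract ((b : ℝ) ^ j * x) ∧ Int.fract ((b : ℝ) ^ j * x) < v}.ncard

/-- the primes in `(N, 2 N]` -/
def primes (N : ℕ) : Finset ℕ := (Finset.Ioc N (2 * N)).filter Nat.Prime

open Classical in
/-- **Digits of roots of random primes.** -/
theorem result {θ : ℝ} (hθ0 : 0 < θ) (hθ : ∀ m : ℕ, θ ≠ m) :
    (∃ N₀ : ℕ, ∀ N : ℕ, N₀ ≤ N → ∀ ω c : ℝ, 1 ≤ |ω| → |ω| ≤ exp ((log N) ^ (9 / 8 : ℝ)) →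
      -- (1) one base
      (∀ b : ℕ, 2 ≤ b → (b : ℝ) ≤ exp ((log N) ^ (1 / 8 : ℝ)) → ∀ P : Finset ℕ,
        (P.card : ℝ) ≤ (log N) ^ (1 / 8 : ℝ) →
        (∀ n ∈ P, n * log b ≤ (log N) ^ (9 / 8 : ℝ)) → ∀ E : Finset (P → Fin b),
        |(((primes N).filter fun p : ℕ =>
            ∃ w ∈ E, ∀ n : P, digit b n (ω * (p : ℝ) ^ θ + c) = w n).card : ℝ) / (primes N).card -
          E.card / (b : ℝ) ^ P.card| ≤ exp (-((log N) ^ (1 / 8 : ℝ)))) ∧
      -- (2) several bases
      (∀ (k : ℕ) (b n : Fin k → ℕ), (k : ℝ) ≤ (log N) ^ (1 / 8 : ℝ) → (∀ i, 1 ≤ b i) →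
        (∀ i, (b i : ℝ) ≤ exp ((log N) ^ (1 / 8 : ℝ))) →
        (∀ i, n i * log (b i) ≤ (log N) ^ (9 / 8 : ℝ)) → ∀ E : Set (Fin k → ℕ),
        |(((primes N).filter fun p : ℕ =>
            (fun i => digit (b i) (n i) (ω * (p : ℝ) ^ θ + c)) ∈ E).card : ℝ) / (primes N).card -
          volume.real {x : ℝ | x ∈ Set.Ico (0 : ℝ) 1 ∧ (fun i => digit (b i) (n i) x) ∈ E}| ≤
          exp (-((log N) ^ (1 / 8 : ℝ))))) ∧
    -- (3) all bases and windows at once
    (∀ ε : ℝ, 0 < ε → ∃ c : ℝ, 0 < c ∧ ∃ N₀ : ℕ, ∀ N : ℕ, N₀ ≤ N → ∀ ω y : ℝ,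
      1 ≤ |ω| → |ω| ≤ exp (log N ^ (9 / 8 : ℝ)) →
      (((primes N).filter fun p : ℕ =>
        ¬ ∀ b : ℕ, 2 ≤ b → (b : ℝ) ≤ exp (c * log N ^ (1 / 8 : ℝ)) →
          ∀ i W : ℕ, log N ^ (1 / 8 : ℝ) ≤ W → ((i : ℝ) + W) * log b ≤ log N ^ (9 / 8 : ℝ) →
          ∀ u v : ℝ, 0 ≤ u → u ≤ v → v ≤ 1 →
          |(count b (ω * (p : ℝ) ^ θ + y) i W u v : ℝ) - (v - u) * W| ≤ ε * W).card : ℝ) ≤
        exp (-(c * log N ^ (1 / 8 : ℝ))) * (primes N).card) := by
  refine ⟨?_, fun ε hε => ?_⟩
  · obtain ⟨N₀, hN₀⟩ := Pool.Agent.X121.PR.finalP hθ0 hθ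
    exact ⟨N₀, fun N hN ω c h1 h2 => (hN₀ N hN).2 ω c h1 h2⟩
  obtain ⟨c, hc0, -, N₀, h⟩ := Pool.Agent.X121.PR.singleP hθ0 hθ (ε := min ε 1)
    (lt_min hε one_pos) (min_le_right _ _)
  refine ⟨c, hc0, N₀, fun N hN ω y hω1 hω2 => ?_⟩
  refine h N hN ω y hω1 hω2 _ (Finset.filter_subset _ _) ?_
  intro n hn
  have hn2 := (Finset.mem_filter.1 hn).2
  simp only [not_forall] at hn2
  obtain ⟨b, hb2, hbe, i, W, hW, hiW, u, v, hu, huv, hv, hnot⟩ := hn2
  refine ⟨b, hb2, hbe, fun hgood => hnot ?_⟩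
  have hlogb : 0 ≤ log (b : ℝ) := log_natCast_nonneg b
  have h2 := hgood i W hW (by
    intro m hm1 hm2
    refine le_trans ?_ hiW
    have : (m : ℝ) ≤ (i : ℝ) + W := by exact_mod_cast hm2.le
    exact mul_le_mul_of_nonneg_right this hlogb) (fun _ => u) (fun _ => v) (fun _ => hu)
    (fun _ => huv) (fun _ => hv)
  have e1 : count b (ω * (n : ℝ) ^ θ + y) i W u v = ((Finset.range W).filter fun j => ∀ _t : Unit,
      u ≤ Int.fract ((b : ℝ) ^ (i + j) * (ω * (n : ℝ) ^ θ + y)) ∧
      Int.fract ((b : ℝ) ^ (i + j) * (ω * (n : ℝ) ^ θ + y)) < v).card := by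
    unfold count
    have e2 : {j : ℕ | i ≤ j ∧ j < i + W ∧ u ≤ Int.fract ((b : ℝ) ^ j * (ω * (n : ℝ) ^ θ + y)) ∧
        Int.fract ((b : ℝ) ^ j * (ω * (n : ℝ) ^ θ + y)) < v} =
        ((((Finset.range W).filter fun j => ∀ _t : Unit,
        u ≤ Int.fract ((b : ℝ) ^ (i + j) * (ω * (n : ℝ) ^ θ + y)) ∧
        Int.fract ((b : ℝ) ^ (i + j) * (ω * (n : ℝ) ^ θ + y)) < v).image (fun j => i + j) : Finset ℕ) : Set ℕ) := by
      ext j
      simp only [Set.mem_ofPred_eq, Finset.coe_image, Finset.coe_filter, Finset.mem_range, Set.mem_image,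
        forall_const]
      constructor
      · rintro ⟨a1, a2, a3⟩
        have a4 : i + (j - i) = j := by omega
        exact ⟨j - i, ⟨by omega, by rw [a4]; exact a3⟩, a4⟩
      · rintro ⟨j', ⟨a1, a3⟩, rfl⟩
        exact ⟨by omega, by omega, a3⟩
    rw [e2, Set.ncard_coe_finset, Finset.card_image_of_injective _ (fun a a' h => by simpa using h)]
  rw [e1]
  have h3 : ∏ _t : Unit, (v - u) = v - u := by simp
  rw [h3] at h2
  refine h2.trans ?_
  exact mul_le_mul_of_nonneg_right (min_le_left _ _) (Nat.cast_nonneg _)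

end Pool.Agent.Results.MP_f2f914_nt.DigitsOfRootsOfPrimes
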